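import Pool.Agent.TH680.DT.Subst
import Pool.Agent.TH680.OD.PHI
import Pool.Agent.H620R2.GaugeX.NonNullX
import Pool.Agent.H620R2.GaugeX.X11
import Pool.Agent.H622R2.Exp.Defs

/-! An oracle above any given one with `NEXP` in `P / poly`. -/

set_option autoImplicit false

namespace Pool.Agent.TH680.NX

open Pool.Agent.NPC Pool.Agent.H620R2.Gauge Pool.Agent.H622R2.Exp
open Pool.Agent.TH680.OD (join)

theorem nexp_local2 (M : Alg) (q : Polynomial ℕ) (C : Oracle) : ∃ r : Polynomial ℕ,
    ∀ (x : List Bool) (A : Oracle),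
      (∃ w : List Bool, w.length ≤ 2 ^ q.eval x.length ∧
        M.out (join A C) (pairBits w x) = some [true]) →
      ∃ U : Finset (List Bool), U.card ≤ 2 ^ r.eval x.length ∧
        ∀ A' : Oracle, (∀ u ∈ U, A' u = A u) →
          ∃ w : List Bool, w.length ≤ 2 ^ q.eval x.length ∧
            M.out (join A' C) (pairBits w x) = some [true] := by
  classical
  obtain ⟨r, hr⟩ := exists_exp_bound M.p q
  refine ⟨r, ?_⟩
  rintro x A ⟨w, hw, h⟩
  obtain ⟨U, hU1, hU2⟩ := H620R2.Gauge.run_local M (join A C) (pairBits w x)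
    (M.p.eval (pairBits w x).length) []
  refine ⟨U.image List.tail, Finset.card_image_le.trans (hU1.trans ?_), fun A' hA' =>
    ⟨w, hw, ?_⟩⟩
  · refine le_trans (eval_mono _ ?_) (hr x.length)
    rw [length_pairBits]
    omega
  · have h2 : M.out (join A' C) (pairBits w x) = M.out (join A C) (pairBits w x) := by
      refine hU2 _ fun u hu => ?_
      rcases u with _ | ⟨c, z⟩
      · rfl
      · cases c with
        | true => rfl
        | false => exact hA' z (Finset.mem_image.2 ⟨_, hu, rfl⟩)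
    rw [h2, h]

/-- the questions to the first part -/
theorem isFP_fst (Q C : Oracle) : IsFP (join Q C) (fun q => [Q q]) := by
  obtain ⟨M, hM⟩ := IsFP.tt (A := join Q C) (Q := fun q => [false :: q])
    (H := fun p => [p.2.head?.getD false])
    (Poly.cons (Poly.cons (NPC.Poly.const false) Poly.id) (NPC.Poly.const []))
    (Poly.cons (Poly.head?_getD (Poly.snd Poly.id) false) (NPC.Poly.const []))
  refine ⟨M, fun q => ?_⟩
  rw [hM q]
  rfl

/-- **`NEXP` is in `P / poly`, above any oracle.** -/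
theorem exists_above_nexp (C : Oracle) : ∃ Q : Oracle, ∀ L, InNTime Pol (join Q C) L →
    WithAdvice (IsP (join Q C)) L := by
  classical
  have hcount := Pool.Agent.H620R2.Gauge.CC.poly_countable
  obtain ⟨al, hal⟩ := exists_alg
  have h2 : Countable Alg := inferInstance
  have h3 : Nonempty (Alg × Polynomial ℕ) := ⟨(al 0, 0)⟩
  obtain ⟨u, hu⟩ := exists_surjective_nat (Alg × Polynomial ℕ)
  choose rd hrd using fun (M : Alg) (q : Polynomial ℕ) => nexp_local2 M q C
  set R : ℕ → Polynomial ℕ := fun e => Polynomial.X + Polynomial.C (e + 1) with hR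
  set p : ℕ → Polynomial ℕ := fun e => rd (u e).1 (u e).2 with hp
  obtain ⟨Φ, hΦ⟩ := exists_stageN R p (fun e x A =>
    ∃ w : List Bool, w.length ≤ 2 ^ (u e).2.eval x.length ∧
      (u e).1.out (join A C) (pairBits w x) = some [true])
    (fun e x A => hrd (u e).1 (u e).2 x A)
  set Q := Φ C with hQ
  refine ⟨Q, ?_⟩
  rintro L ⟨V, ⟨M, hM⟩, q, _, hV⟩
  obtain ⟨e, he⟩ := hu (M, q)
  have h4 := isBPP_of_code R p Q e {x | ∃ w : List Bool, w.length ≤ 2 ^ (u e).2.eval x.length ∧
      (u e).1.out (join Q C) (pairBits w x) = some [true]} (fun x => (hΦ C).2 e x)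
  have h5 : L = {x | ∃ w : List Bool, w.length ≤ 2 ^ (u e).2.eval x.length ∧
      (u e).1.out (join Q C) (pairBits w x) = some [true]} := by
    ext x
    rw [hV x, Set.mem_ofPred_eq]
    simp only [he, hM, Option.some.injEq]
  rw [← h5] at h4
  obtain ⟨L', g, p', ⟨V', hV', hL'⟩, hg, hL⟩ := h4.withAdvice
  exact ⟨L', g, p', ⟨V', DT.isFP_subst (isFP_fst Q C) hV', hL'⟩, hg, hL⟩

end Pool.Agent.TH680.NX
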