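import Pool.Agent.TH680.NX.Above
import Pool.Agent.TH678.PN.Main

/-! An oracle above any given one with `P^NP = NEXP`. -/

set_option autoImplicit false

namespace Pool.Agent.TH680.NX

open Pool.Agent.NPC Pool.Agent.H620R2.Gauge Pool.Agent.H622R2.Exp Pool.Agent.TH678.PN
open Pool.Agent.TH680.OD (join)

theorem finDep_join {P : Oracle → Prop} (C : Oracle) (h : FinDep P) :
    FinDep (fun A => P (join A C)) := by
  classical
  obtain ⟨W, hW⟩ := h
  refine ⟨W.image List.tail, fun A A' hA => ?_⟩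
  apply hW
  intro u hu
  rcases u with _ | ⟨c, z⟩
  · rfl
  · cases c with
    | true => rfl
    | false => exact hA z (Finset.mem_image.2 ⟨_, hu, rfl⟩)

theorem isNP_fst {Q C : Oracle} {L : Set (List Bool)} (h : IsNP Q L) : IsNP (join Q C) L := by
  obtain ⟨V, p, hV, hL⟩ := h
  exact ⟨V, p, DT.isFP_subst (isFP_fst Q C) hV, hL⟩

open Classical in
/-- **`NEXP` is in `P^NP`, above any oracle.** -/
theorem exists_above_pnp (C : Oracle) : ∃ Q : Oracle, ∀ L, InNTime Pol (join Q C) L →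
    IsPNP (join Q C) L := by
  have h1 := CC.poly_countable
  obtain ⟨al, hal⟩ := exists_alg
  have h2 : Countable Alg := inferInstance
  have h3 : Nonempty (Alg × Polynomial ℕ) := ⟨(al 0, 0)⟩
  obtain ⟨g, hg⟩ := exists_surjective_nat (Alg × Polynomial ℕ)
  choose rd hrd using fun (M : Alg) (q : Polynomial ℕ) => nexp_local2 M q C
  set R : ℕ → Polynomial ℕ := fun e => Polynomial.X + Polynomial.C (e + 1) with hR
  set p : ℕ → Polynomial ℕ := fun e => rd (g e).1 (g e).2 with hp
  set P : ℕ → List Bool → Oracle → Prop := fun e x A =>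
    ∃ w : List Bool, w.length ≤ 2 ^ (g e).2.eval x.length ∧
      (g e).1.out (join A C) (pairBits w x) = some [true] with hP
  obtain ⟨Q, _, hΦ2⟩ := (setting R p P (fun e x A => hrd (g e).1 (g e).2 x A)
    (fun e x => finDep_join C (finDep_cert (g e).1 (g e).2 x))).exists_right C
  refine ⟨Q, ?_⟩
  rintro L ⟨V, ⟨M, hM⟩, q, _, hV⟩
  obtain ⟨e, he⟩ := hg (M, q)
  have h4 := isPNP_of_code R p Q e
  have h5 : L = {x | Z (NN p) (cdN R p) (e, x) Q % 2 = 1} := by
    ext x
    rw [hV x, Set.mem_ofPred_eq]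
    have h6 : P e x Q ↔ Z (NN p) (cdN R p) (e, x) Q % 2 = 1 := hΦ2 (e, x)
    rw [← h6, hP]
    simp only [he, hM, Option.some.injEq]
  rw [← h5] at h4
  obtain ⟨D, h6, h7⟩ := h4
  exact ⟨D, isNP_fst h6, h7⟩

end Pool.Agent.TH680.NX
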