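import Pool.Agent.TH680.OR.Law

/-! Properties which few of the neighbours of an oracle without witnesses have. -/

set_option autoImplicit false

namespace Pool.Agent.TH680.NX

open Pool.Agent.NPC Pool.Agent.H620R2.Gauge Pool.Agent.H591R3.PHG MeasureTheory ProbabilityTheory
  Finset Pool.Agent.W900.IE Pool.Agent.W900.PS Pool.Agent.H622R2 Pool.Agent.W900
open Pool.Agent.TH680.OD (join sfx rr length_sfx disj_blk len_blk)
open Pool.Agent.TH680.SE (setT card_strs card_bad nn KK nn_le le_nn KK_le)
open Pool.Agent.TH680.OR (put put_off put_on Free single)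

open Classical in
theorem nb_sum {R : Set Oracle} {n N K : ℕ} {b : Bool} {A : Oracle}
    (h : 4 * ((DT.strs n).filter (fun w => put N K b w A ∈ R)).card ≤ 3 * 2 ^ n) :
    ((DT.strs n).card / 4 : ℝ) ≤ ∑ w ∈ DT.strs n,
      Set.indicator {A | setT (OD.blk N K w) (fun _ => !b) A ∉ R} (fun _ => (1 : ℝ)) A := by
  set Gd : Finset (List Bool) := (DT.strs n).filter (fun w => put N K b w A ∈ R) with hGd
  have hsum : ∑ w ∈ DT.strs n, Set.indicator {A | setT (OD.blk N K w) (fun _ => !b) A ∉ R}
      (fun _ => (1 : ℝ)) A = (((DT.strs n).filter (fun w => ¬ put N K b w A ∈ R)).card : ℝ) := by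
    rw [Finset.card_filter]
    push_cast
    refine Finset.sum_congr rfl fun w _ => ?_
    by_cases h1 : put N K b w A ∈ R
    · rw [if_neg (not_not.2 h1), Set.indicator_of_notMem]
      exact fun h2 => h2 h1
    · rw [if_pos h1, Set.indicator_of_mem]
      exact h1
  rw [hsum]
  have hcard : Gd.card + ((DT.strs n).filter (fun w => ¬ put N K b w A ∈ R)).card = 2 ^ n := by
    rw [← card_strs n]
    convert Finset.card_filter_add_card_filter_not (s := DT.strs n)
      (fun w => put N K b w A ∈ R)
  rw [card_strs]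
  have h4 : 2 ^ n ≤ 4 * ((DT.strs n).filter (fun w => ¬ put N K b w A ∈ R)).card := by omega
  have h5 : (2 ^ n : ℝ) ≤ 4 * ((DT.strs n).filter (fun w => ¬ put N K b w A ∈ R)).card := by
    exact_mod_cast h4
  push_cast
  linarith

open Classical in
/-- **A property which few neighbours of an oracle without witnesses have.** -/
theorem ae_few {q : ℕ → unitInterval} {b : Bool}
    (hb : ¬ Summable (fun N => if decide ((1 / 2 : ℝ) < q N) = b then 2 ^ N * rr q N else 0))
    {R : ℕ → Set Oracle} (hdep : ∀ N, ∃ F, DepO F (R N))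
    (hnb : ∀ᶠ N : ℕ in Filter.atTop, ∀ A ∈ R N, Free (nn q N) N (KK q N) b A →
      4 * ((DT.strs (nn q N)).filter (fun w => put N (KK q N) b w A ∈ R N)).card ≤
        3 * 2 ^ nn q N) :
    ∀ᵐ A ∂(indep (DT.pq q)), ∃ᶠ N in Filter.atTop, A ∉ R N := by
  refine OR.ae_often hb hdep ?_
  filter_upwards [hnb] with N hN A hA hf
  exact nb_sum (hN A hA hf)

end Pool.Agent.TH680.NX
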