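import Pool.Agent.TH680.NX.Law
import Pool.Agent.H620R2.GaugeX.X9

/-! Nondeterministic exponential time with advice. -/

set_option autoImplicit false

namespace Pool.Agent.TH680.NX

open Pool.Agent.NPC Pool.Agent.H620R2.Gauge Pool.Agent.H591R3.PHG MeasureTheory ProbabilityTheory
  Finset Pool.Agent.W900.IE Pool.Agent.W900.PS Pool.Agent.H622R2 Pool.Agent.W900
  Pool.Agent.H622R2.Exp
open Pool.Agent.TH680.OD (join sfx rr length_sfx disj_blk len_blk)
open Pool.Agent.TH680.SE (setT card_strs card_bad nn KK nn_le le_nn KK_le rare_sum)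
open Pool.Agent.TH680.OR (put put_off put_on Free single)
open Pool.Agent.TH680.EL

/-- Deterministic time `2 ^ (2 ^ (n / 100))` with `2 ^ (n / 100)` bits of advice, for all large
input lengths `n`, relative to `A`. -/
def InTimeAdv (A : Oracle) (L : Set (List Bool)) : Prop :=
  ∃ (M : Alg) (h : ℕ → List Bool), ∀ᶠ n : ℕ in Filter.atTop, (h n).length ≤ 2 ^ (n / 100) ∧
    ∀ x : List Bool, x.length = n →
      ∃ z : List Bool, M.run A (pairBits x (h n)) (2 ^ 2 ^ (n / 100)) [] = some z ∧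
        (x ∈ L ↔ z = [true])

theorem succ_le_half {n : ℕ} (hn : 8 ≤ n) : n + 1 ≤ 2 ^ (n / 2) := by
  have h : ∀ k : ℕ, 4 ≤ k → 2 * k + 2 ≤ 2 ^ k := by
    intro k hk
    induction k, hk using Nat.le_induction with
    | base => norm_num
    | succ k hk ih =>
      rw [pow_succ]
      omega
  have := h (n / 2) (by omega)
  omega

/-- the length of the instances -/
noncomputable def ll (q : ℕ → unitInterval) (N : ℕ) : ℕ :=
  2 * cc N + 2 + (xb (nn q N) N (KK q N)).length

theorem room (q : ℕ → unitInterval) : ∀ᶠ N : ℕ in Filter.atTop,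
    2 ^ (2 ^ (ll q N / 100) + 1) * (nn q N * 2 ^ 2 ^ (ll q N / 100) + 1) ≤ 2 ^ (nn q N - 1) ∧
      1 ≤ nn q N := by
  rw [Filter.eventually_atTop]
  refine ⟨2 ^ 20, fun N hN => ?_⟩
  have hl : 20 ≤ Nat.log 2 (N + 1) := Nat.le_log_of_pow_le (by norm_num) (by omega)
  set lam := Nat.log 2 (N + 1) with hlam
  set m := lam / 5 with hm
  have h1 : ll q N ≤ 20 * lam + 29 := by
    have := xb_le q N
    unfold ll cc
    omega
  have h2 : ll q N / 100 ≤ m + 1 := by omega
  set t := 2 ^ m with ht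
  have ht16 : 16 ≤ t := by
    have : 2 ^ 4 ≤ 2 ^ m := Nat.pow_le_pow_right (by norm_num) (by omega)
    simpa using this
  set α := 2 ^ (ll q N / 100) with hα
  have hα2 : α ≤ 2 * t := by
    calc α ≤ 2 ^ (m + 1) := Nat.pow_le_pow_right (by norm_num) h2
      _ = 2 * t := by rw [ht]; ring
  have h8 : 2 ^ (5 * m) ≤ N + 1 := by
    refine le_trans (Nat.pow_le_pow_right (by norm_num) (by omega : 5 * m ≤ lam)) ?_
    exact Nat.pow_log_le_self 2 (by omega)
  have h9 : t * t - 1 ≤ Nat.sqrt N := by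
    rw [Nat.le_sqrt]
    have h10 : t * t * (t * t) ≤ 2 ^ (5 * m) := by
      have : t * t * (t * t) = 2 ^ (4 * m) := by
        rw [ht, ← pow_add, ← pow_add]
        congr 1
        ring
      rw [this]
      exact Nat.pow_le_pow_right (by norm_num) (by omega)
    have h11 : (t * t - 1) * (t * t - 1) ≤ t * t * (t * t) - 1 := by
      obtain ⟨s, hs⟩ : ∃ s, t * t = s + 1 := ⟨t * t - 1, by
        have : 0 < t * t := by positivity
        omega⟩
      rw [hs]
      have : (s + 1) * (s + 1) = s * s + 2 * s + 1 := by ring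
      simp only [Nat.add_sub_cancel]
      omega
    omega
  have h10 := SE.le_nn q N
  set n := nn q N with hn
  have h11 : 16 * t ≤ t * t := Nat.mul_le_mul_right t ht16
  have hn8 : 8 ≤ n := by omega
  refine ⟨?_, by omega⟩
  have h12 : n * 2 ^ α + 1 ≤ 2 ^ (n / 2) * 2 ^ α := by
    have h13 : (n + 1) * 2 ^ α ≤ 2 ^ (n / 2) * 2 ^ α :=
      Nat.mul_le_mul_right _ (succ_le_half hn8)
    have h14 : 1 ≤ 2 ^ α := Nat.one_le_two_pow
    have h15 : (n + 1) * 2 ^ α = n * 2 ^ α + 2 ^ α := by ring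
    omega
  calc 2 ^ (α + 1) * (n * 2 ^ α + 1) ≤ 2 ^ (α + 1) * (2 ^ (n / 2) * 2 ^ α) :=
        Nat.mul_le_mul_left _ h12
    _ = 2 ^ (α + 1 + (n / 2 + α)) := by rw [← pow_add, ← pow_add]
    _ ≤ 2 ^ (n - 1) := Nat.pow_le_pow_right (by norm_num) (by omega)

theorem ae_rx {q : ℕ → unitInterval} {b : Bool}
    (hb : ¬ Summable (fun N => if decide ((1 / 2 : ℝ) < q N) = b then 2 ^ N * rr q N else 0))
    (Q : Oracle) : ∀ᵐ A ∂(indep (DT.pq q)), ∀ M : Alg, ∃ᶠ N : ℕ in Filter.atTop,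
      A ∉ Rx M b Q (2 ^ (ll q N / 100)) (2 ^ 2 ^ (ll q N / 100)) (nn q N) N (KK q N) := by
  rw [ae_all_iff]
  intro M
  refine ae_few hb (fun N => rx_dep M b Q (nn_le q N)) ?_
  filter_upwards [room q] with N hN A _ hf
  exact rx_few (nn_le q N) hN.1 hN.2 hf

/-- **`NE` is not in deterministic time `2 ^ (2 ^ (n / 100))` with advice.** -/
theorem ae_adv {q : ℕ → unitInterval} (h : ¬ Summable (fun N => 2 ^ N * rr q N))
    (Q : Oracle) : ∀ᵐ A ∂(indep (DT.pq q)), ∃ L, InNTime Lin (join Q A) L ∧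
      ¬ InTimeAdv (join Q A) L := by
  obtain ⟨b, hb⟩ := rare_sum h
  filter_upwards [ae_rx hb Q] with A hA
  refine ⟨bitL b (join Q A), bitL_ne b _, ?_⟩
  rintro ⟨M, h, hM⟩
  have htend : Filter.Tendsto (ll q) Filter.atTop Filter.atTop := by
    refine Filter.tendsto_atTop_mono (fun N => ?_) (xb_tendsto q)
    unfold ll
    omega
  obtain ⟨N, hN, h1⟩ := ((hA M).and_eventually (htend.eventually hM)).exists
  apply hN
  refine ⟨h (ll q N), h1.1, fun i hi => ?_⟩
  have h2 : (xi i (nn q N) N (KK q N)).length = ll q N := by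
    rw [length_xi (hi.le.trans (nn_le q N))]
    rfl
  obtain ⟨z, h3, h4⟩ := h1.2 _ h2
  rw [h3, Option.some.injEq, h4]

theorem pow_ge (p : Polynomial ℕ) : ∀ᶠ n : ℕ in Filter.atTop, p.eval n ≤ 2 ^ (n / 100) := by
  obtain ⟨n₀, hn₀⟩ := X9.exists_n0 (p.comp (Polynomial.C 100 * (Polynomial.X + 1)))
  rw [Filter.eventually_atTop]
  refine ⟨100 * n₀, fun n hn => ?_⟩
  have h1 := hn₀ (n / 100) (by omega)
  rw [Polynomial.eval_comp] at h1
  simp only [Polynomial.eval_mul, Polynomial.eval_add, Polynomial.eval_C, Polynomial.eval_X,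
    Polynomial.eval_one] at h1
  exact (eval_mono p (by omega)).trans h1

/-- exponential time with advice is small -/
theorem inTimeAdv_of_exp {O : Oracle} {L : Set (List Bool)} (h : WithAdvice (IsEXP O) L) :
    InTimeAdv O L := by
  obtain ⟨L', g, p, ⟨M, hM⟩, hg, hL⟩ := h
  refine ⟨M, g, ?_⟩
  filter_upwards [pow_ge p, pow_ge (M.p.comp (2 * Polynomial.X + 1 + p))] with n h1 h2
  refine ⟨(hg n).trans h1, fun x hx => ?_⟩
  obtain ⟨z, h3, h4⟩ := hM (pairBits x (g n))
  refine ⟨z, Alg.run_mono M O _ _ _ _ _ ?_ h3, ?_⟩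
  · refine Nat.pow_le_pow_right (by norm_num) (le_trans ?_ h2)
    rw [Polynomial.eval_comp]
    apply eval_mono
    rw [length_pairBits, hx]
    have := hg n
    simp only [Polynomial.eval_add, Polynomial.eval_mul, Polynomial.eval_X, Polynomial.eval_one,
      Polynomial.eval_ofNat]
    omega
  · rw [← h4, hL x, hx]

end Pool.Agent.TH680.NX
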