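import Pool.Agent.TH680.NX.Adv
import Pool.Agent.TH678.PN.Defs

/-! Classes with advice. -/

set_option autoImplicit false

namespace Pool.Agent.TH680.NX

open Pool.Agent.NPC Pool.Agent.H620R2.Gauge Pool.Agent.H622R2 Pool.Agent.H622R2.Exp
  Pool.Agent.W900.IE
open Pool.Agent.TH678.PN (IsPNP)

/-- exponential time with advice is small -/
theorem inTimeAdv_of_wtime {O : Oracle} {L : Set (List Bool)} (h : WithAdvice (InTime Pol O) L) :
    InTimeAdv O L := by
  obtain ⟨L', g, p, ⟨M, r, _, hM⟩, hg, hL⟩ := h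
  refine ⟨M, g, ?_⟩
  filter_upwards [pow_ge p, pow_ge (r.comp (2 * Polynomial.X + 1 + p))] with n h1 h2
  refine ⟨(hg n).trans h1, fun x hx => ?_⟩
  obtain ⟨z, h3, h4⟩ := hM (pairBits x (g n))
  refine ⟨z, Alg.run_mono M O _ _ _ _ _ ?_ h3, ?_⟩
  · refine Nat.pow_le_pow_right (by norm_num) (le_trans ?_ h2)
    rw [Polynomial.eval_comp]
    apply eval_mono
    rw [length_pairBits, hx]
    have := hg n
    simp only [Polynomial.eval_add, Polynomial.eval_mul, Polynomial.eval_X, Polynomial.eval_one,
      Polynomial.eval_ofNat]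
    omega
  · rw [← h4, hL x, hx]

/-- the algorithm which forgets the advice -/
noncomputable def frg (M : Alg) : Alg where
  D := fun z => M.D (pairBits (unpair (unpair z).1).1 (unpair z).2)
  poly := by
    apply polyTime_of_poly_list
    exact (poly_of_polyTime M.poly).comp (H622R2.poly_pairBits (poly_u1.comp poly_u1) poly_u2)
  p := M.p

theorem frg_run (M : Alg) (O : Oracle) (x a : List Bool) : ∀ (n : ℕ) (l : List Bool),
    (frg M).run O (pairBits x a) n l = M.run O x n l := by
  intro n
  induction n with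
  | zero => intro l; rfl
  | succ n ih =>
    intro l
    have h1 : (frg M).D (pairBits (pairBits x a) l) = M.D (pairBits x l) := by
      show M.D _ = _
      rw [unpair_pairBits]
      simp only [unpair_pairBits]
    rcases hq : M.D (pairBits x l) with _ | ⟨c, q⟩
    · simp only [Alg.run, h1, hq]
    · cases c with
      | true => simp only [Alg.run, h1, hq]
      | false =>
        simp only [Alg.run, h1, hq]
        exact ih _

theorem inTimeAdv_of_time {O : Oracle} {L : Set (List Bool)} (h : InTime Pol O L) :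
    InTimeAdv O L := by
  obtain ⟨M, r, _, hM⟩ := h
  refine ⟨frg M, fun _ => [], ?_⟩
  filter_upwards [pow_ge r] with n h1
  refine ⟨by simp, fun x hx => ?_⟩
  obtain ⟨z, h3, h4⟩ := hM x
  refine ⟨z, ?_, h4⟩
  rw [frg_run]
  refine Alg.run_mono M O _ _ _ _ _ ?_ h3
  rw [hx]
  exact Nat.pow_le_pow_right (by norm_num) h1

theorem pnp_withAdvice {O : Oracle} {L : Set (List Bool)} (h : IsPNP O L) :
    WithAdvice (IsPNP O) L := by
  obtain ⟨C, hC, V, hV, hL⟩ := h
  refine ⟨{y | (unpair y).1 ∈ L}, fun _ => [], 0, ⟨C, hC, fun y => V (unpair y).1,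
    IsFP.comp hV (IsFP.of_poly poly_u1), fun y => hL _⟩, fun n => by simp, fun x => ?_⟩
  rw [Set.mem_ofPred_eq, unpair_pairBits]

end Pool.Agent.TH680.NX
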