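import Pool.Agent.TH680.EL.Law
import Pool.Agent.TH680.OR.Law
import Pool.Agent.TH680.EB.Pad
import Pool.Agent.H620R2.GaugeX.X1

/-! The bits of a rare witness, in nondeterministic exponential time. -/

set_option autoImplicit false

namespace Pool.Agent.TH680.NX

open Pool.Agent.NPC Pool.Agent.H620R2.Gauge Pool.Agent.H591R3.PHG MeasureTheory ProbabilityTheory
  Finset Pool.Agent.W900.IE Pool.Agent.W900.PS Pool.Agent.H622R2 Pool.Agent.W900
  Pool.Agent.H622R2.Exp
open Pool.Agent.TH680.OD (join sfx rr length_sfx)
open Pool.Agent.TH680.SE (nn KK nn_le le_nn KK_le ae_fail rare_sum)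
open Pool.Agent.TH680.EL

/-- the room for the index -/
def cc (N : ℕ) : ℕ := 4 * (Nat.log 2 (N + 1) + 1) + 1

/-- the instances: the bit number `i` -/
def xi (i n N K : ℕ) : List Bool :=
  pairBits (List.replicate (cc N - sz i) true) (pairBits (bits i) (xb n N K))

theorem length_xi {i n N K : ℕ} (hi : i ≤ N) :
    (xi i n N K).length = 2 * cc N + 2 + (xb n N K).length := by
  unfold xi
  rw [length_pairBits, length_pairBits, List.length_replicate, bits_length]
  have h : sz i ≤ cc N := sz_le_log i N (by omega)
  omega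

theorem length_xi_ge (i n N K : ℕ) : (xb n N K).length ≤ (xi i n N K).length := by
  unfold xi
  rw [length_pairBits, length_pairBits]
  omega

/-- the index in an instance -/
def ii (x : List Bool) : ℕ := (unbits ℕ (unpair (unpair x).2).1).getD 0

/-- the parameters of an instance -/
def yy (x : List Bool) : List Bool := (unpair (unpair x).2).2

theorem ii_xi (i n N K : ℕ) : ii (xi i n N K) = i := by
  unfold ii xi
  rw [unpair_pairBits, unpair_pairBits, unbits_bits, Option.getD_some]

theorem yy_xi (i n N K : ℕ) : yy (xi i n N K) = xb n N K := by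
  unfold yy xi
  rw [unpair_pairBits, unpair_pairBits]

theorem poly_ii : Poly ii :=
  (Poly.optGetD poly_unbits (NPC.Poly.const 0)).comp (poly_u1.comp poly_u2)

theorem poly_yy : Poly yy := poly_u2.comp poly_u2

/-- the bit number `i` of the certificate -/
def tb (z : List Bool) : Bool :=
  (((unpair z).1.drop (min (ii (unpair z).2) (unpair z).1.length)).head?).getD false

theorem poly_tb : Poly tb :=
  Poly.head?_getD (EB.poly_drop poly_u1 (poly_min_len (poly_ii.comp poly_u2) poly_u1)) false

theorem tb_pair {i n N K : ℕ} {w : List Bool} (hi : i < w.length) :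
    tb (pairBits w (xi i n N K)) = w.getD i false := by
  unfold tb
  rw [unpair_pairBits]
  simp only
  rw [ii_xi, min_eq_left hi.le, List.head?_drop]
  simp

/-- the verification -/
def verI (b : Bool) (O : Oracle) (z : List Bool) : List Bool :=
  if tb z = true then ver b O (pairBits (unpair z).1 (yy (unpair z).2)) else []

theorem isFP_verI (b : Bool) (O : Oracle) : IsFP O (verI b O) := by
  have h1 : Poly (fun z : List Bool => pairBits (unpair z).1 (yy (unpair z).2)) :=
    H622R2.poly_pairBits poly_u1 (poly_yy.comp poly_u2)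
  have h2 : IsFP O (fun z => ver b O (pairBits (unpair z).1 (yy (unpair z).2))) :=
    IsFP.comp (isFP_ver b O) (IsFP.of_poly h1)
  exact IsFP.seq (φ := fun t => t.1)
    (ψ := fun t => if tb t.1 = true then t.2.1 else [])
    h2 h2 (Poly.fst Poly.id)
    (Poly.ite (Poly.decide_eq (poly_tb.comp (Poly.fst Poly.id)) (NPC.Poly.const true))
      (Poly.fst (Poly.snd Poly.id)) (NPC.Poly.const []))

/-- the language of the bits of the witnesses -/
def bitL (b : Bool) (O : Oracle) : Set (List Bool) :=
  {x | ∃ w : List Bool, w.length ≤ 2 ^ qe.eval x.length ∧ verI b O (pairBits w x) = [true]}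

theorem bitL_ne (b : Bool) (O : Oracle) : InNTime Lin O (bitL b O) :=
  ⟨verI b O, isFP_verI b O, qe, qe_lin, fun _ => Iff.rfl⟩

theorem xi_mem (b : Bool) (Q A : Oracle) {i n N K : ℕ} (hi : i < n) (hn : n ≤ N) :
    xi i n N K ∈ bitL b (join Q A) ↔ ∃ w : List Bool, w.length = n ∧ w.getD i false = true ∧
      ∀ j < K, A (w ++ sfx (N - n) j) = !b := by
  have hver : ∀ w : List Bool, ver b (join Q A) (pairBits w (xb n N K)) = [true] ↔
      (N ≤ w.length ∧ K ≤ w.length) ∧ ∀ i < K, (A (w.take n ++ sfx (N - n) i) ^^ b) = true := by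
    intro w
    unfold ver ask chk
    simp only [unpair_pairBits, dc_xb, List.cons.injEq, and_true,
      Bool.and_eq_true, decide_eq_true_eq, List.all_eq_true, List.mem_map, List.mem_range,
      forall_exists_index, and_imp]
    constructor
    · rintro ⟨⟨_, h1, h2⟩, h⟩
      refine ⟨⟨h1, h2⟩, fun i hi => ?_⟩
      have h3 := h _ _ i (by omega) rfl rfl
      rw [min_eq_left h1, min_eq_left (hn.trans h1)] at h3
      exact h3
    · rintro ⟨⟨h1, h2⟩, h⟩
      refine ⟨⟨hn, h1, h2⟩, ?_⟩
      rintro a q i hi rfl rfl
      rw [min_eq_left h1, min_eq_left (hn.trans h1)]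
      exact h i (by omega)
  have hx : ∀ w : List Bool, verI b (join Q A) (pairBits w (xi i n N K)) = [true] ↔
      tb (pairBits w (xi i n N K)) = true ∧ ver b (join Q A) (pairBits w (xb n N K)) = [true] := by
    intro w
    unfold verI
    rw [unpair_pairBits]
    simp only [yy_xi]
    split_ifs with h
    · simp [h]
    · simp [h]
  unfold bitL
  rw [Set.mem_ofPred_eq]
  constructor
  · rintro ⟨w, _, h⟩
    obtain ⟨h1, h2⟩ := (hx w).1 h
    obtain ⟨⟨h3, _⟩, h4⟩ := (hver w).1 h2
    rw [tb_pair (by omega)] at h1
    refine ⟨w.take n, by rw [List.length_take]; omega, ?_, fun j hj => ?_⟩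
    · rw [← h1, List.getD_eq_getElem?_getD, List.getD_eq_getElem?_getD, List.getElem?_take_of_lt hi]
    · have h5 := h4 j hj
      revert h5
      cases A (w.take n ++ sfx (N - n) j) <;> cases b <;> simp
  · rintro ⟨w, hw, h1, h2⟩
    refine ⟨w ++ List.replicate (N + K) true, ?_, (hx _).2 ⟨?_, (hver _).2 ⟨⟨by simp; omega,
      by simp; omega⟩, fun j hj => ?_⟩⟩⟩
    · have h3 := xb_room n N K hn
      have h4 : 2 ^ qe.eval (xb n N K).length ≤ 2 ^ qe.eval (xi i n N K).length :=
        Nat.pow_le_pow_right (by norm_num) (eval_mono _ (length_xi_ge i n N K))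
      rw [List.length_append, List.length_replicate]
      omega
    · rw [tb_pair (by rw [List.length_append]; omega), List.getD_eq_getElem?_getD,
        List.getElem?_append_left (by omega), ← List.getD_eq_getElem?_getD]
      exact h1
    · have h5 : (w ++ List.replicate (N + K) true).take n = w := by
        rw [← hw, List.take_left]
      rw [h5, h2 j hj]
      cases b <;> rfl

end Pool.Agent.TH680.NX
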