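import Pool.Agent.TH680.NX.Few
import Pool.Agent.TH680.NX.Bit

/-! Nondeterministic exponential time is not in deterministic time with advice. -/

set_option autoImplicit false

namespace Pool.Agent.TH680.NX

open Pool.Agent.NPC Pool.Agent.H620R2.Gauge Pool.Agent.H591R3.PHG MeasureTheory ProbabilityTheory
  Finset Pool.Agent.W900.IE Pool.Agent.W900.PS Pool.Agent.H622R2 Pool.Agent.W900
  Pool.Agent.H622R2.Exp
open Pool.Agent.TH680.OD (join sfx rr length_sfx disj_blk len_blk)
open Pool.Agent.TH680.SE (setT card_strs card_bad nn KK nn_le le_nn KK_le rare_sum)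
open Pool.Agent.TH680.OR (put put_off put_on Free single)
open Pool.Agent.TH680.EL

/-- the algorithm `M` with some advice is right at `(n, N, K)` -/
def Rx (M : Alg) (b : Bool) (Q : Oracle) (α τ n N K : ℕ) : Set Oracle :=
  {A | ∃ a : List Bool, a.length ≤ α ∧ ∀ i < n,
    (M.run (join Q A) (pairBits (xi i n N K) a) τ [] = some [true] ↔
      xi i n N K ∈ bitL b (join Q A))}

theorem rx_dep (M : Alg) (b : Bool) (Q : Oracle) {α τ n N K : ℕ} (hn : n ≤ N) :
    ∃ F, DepO F (Rx M b Q α τ n N K) := by
  classical
  obtain ⟨qb, hqb⟩ := Exp.run_local M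
  set ℓ := 2 * (2 * cc N + 2 + (xb n N K).length) + 1 + α with hℓ
  refine ⟨(Finset.range (qb.eval (ℓ + τ) + N + 1)).biUnion DT.strs, ?_⟩
  rintro A A' h ⟨a, ha, h1⟩
  have hag : ∀ z : List Bool, z.length ≤ qb.eval (ℓ + τ) + N → A z = A' z := fun z hz =>
    h z (Finset.mem_biUnion.2 ⟨z.length, Finset.mem_range.2 (by omega), DT.mem_strs.2 rfl⟩)
  refine ⟨a, ha, fun i hi => ?_⟩
  have h2 : M.run (join Q A') (pairBits (xi i n N K) a) τ [] =
      M.run (join Q A) (pairBits (xi i n N K) a) τ [] := by
    obtain ⟨S, _, hS, hSA⟩ := hqb (join Q A) (pairBits (xi i n N K) a) τ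
    apply hSA
    intro y hy
    have h3 := hS y hy
    have h4 : qb.eval ((pairBits (xi i n N K) a).length + τ) ≤ qb.eval (ℓ + τ) := by
      apply eval_mono
      rw [length_pairBits, length_xi (by omega)]
      omega
    rcases y with _ | ⟨c, z⟩
    · rfl
    · rw [List.length_cons] at h3
      cases c with
      | false => rfl
      | true => exact (hag z (by omega)).symm
  rw [h2, h1 i hi, xi_mem b Q A hi hn, xi_mem b Q A' hi hn]
  refine exists_congr fun w => and_congr_right fun hw => and_congr_right fun _ => ?_
  refine forall_congr' fun j => forall_congr' fun _ => ?_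
  rw [hag]
  rw [List.length_append, length_sfx]
  omega

/-- the number of the advice strings -/
theorem card_adv (α : ℕ) : ((Finset.range (α + 1)).biUnion DT.strs).card < 2 ^ (α + 1) :=
  OR.card_short α

open Classical in
theorem rx_few {M : Alg} {b : Bool} {Q : Oracle} {α τ n N K : ℕ} (hn : n ≤ N)
    (hs : 2 ^ (α + 1) * (n * τ + 1) ≤ 2 ^ (n - 1)) (hn1 : 1 ≤ n) {A : Oracle}
    (hf : Free n N K b A) :
    4 * ((DT.strs n).filter (fun w => put N K b w A ∈ Rx M b Q α τ n N K)).card ≤ 3 * 2 ^ n := by
  set Ad : Finset (List Bool) := (Finset.range (α + 1)).biUnion DT.strs with hAd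
  -- the questions
  choose S hS hSA using fun (a : List Bool) (i : ℕ) =>
    H620R2.Gauge.run_local M (join Q A) (pairBits (xi i n N K) a) τ []
  set T : List Bool → Finset (List Bool) := fun a =>
    (Finset.range n).biUnion (fun i => (S a i).image List.tail) with hT
  have hTc : ∀ a, (T a).card ≤ n * τ := by
    intro a
    refine Finset.card_biUnion_le.trans ?_
    calc ∑ i ∈ Finset.range n, ((S a i).image List.tail).card
        ≤ ∑ _i ∈ Finset.range n, τ := Finset.sum_le_sum fun i _ =>
          Finset.card_image_le.trans (hS a i)
      _ = n * τ := by rw [Finset.sum_const, Finset.card_range, smul_eq_mul]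
  -- the witness determined by the advice
  set V : List Bool → List Bool := fun a => (List.range n).map (fun i =>
    decide (M.run (join Q A) (pairBits (xi i n N K) a) τ [] = some [true])) with hV
  have hsub : (DT.strs n).filter (fun w => put N K b w A ∈ Rx M b Q α τ n N K) ⊆
      Ad.biUnion (fun a => insert (V a)
        ((DT.strs n).filter (fun w => ¬ Disjoint (T a) (OD.blk N K w)))) := by
    intro w hw
    rw [Finset.mem_filter] at hw
    obtain ⟨hw1, a, ha, hw2⟩ := hw
    rw [Finset.mem_biUnion]
    refine ⟨a, ?_, ?_⟩
    · rw [hAd, Finset.mem_biUnion]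
      exact ⟨a.length, Finset.mem_range.2 (by omega), DT.mem_strs.2 rfl⟩
    · rw [Finset.mem_insert, Finset.mem_filter]
      by_cases hd : Disjoint (T a) (OD.blk N K w)
      · left
        have hwn := DT.mem_strs.1 hw1
        apply List.ext_getElem
        · rw [hV, List.length_map, List.length_range, hwn]
        · intro i h1 h2
          have hi : i < n := by omega
          have h3 := hw2 i hi
          have h4 : M.run (join Q (put N K b w A)) (pairBits (xi i n N K) a) τ [] =
              M.run (join Q A) (pairBits (xi i n N K) a) τ [] := by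
            apply hSA a i
            intro y hy
            rcases y with _ | ⟨c, z⟩
            · rfl
            · cases c with
              | false => rfl
              | true =>
                show put N K b w A z = A z
                apply put_off
                refine Finset.disjoint_left.1 hd ?_
                rw [hT, Finset.mem_biUnion]
                exact ⟨i, Finset.mem_range.2 hi, Finset.mem_image.2 ⟨_, hy, rfl⟩⟩
          rw [h4, xi_mem b Q _ hi hn] at h3
          have h5 : (∃ w' : List Bool, w'.length = n ∧ w'.getD i false = true ∧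
              ∀ j < K, put N K b w A (w' ++ sfx (N - n) j) = !b) ↔ w.getD i false = true := by
            constructor
            · rintro ⟨w', h5, h6, h7⟩
              rw [(single hf hw1 w' h5).1 h7] at h6
              exact h6
            · intro h6
              exact ⟨w, hwn, h6, (single hf hw1 w hwn).2 rfl⟩
          rw [h5] at h3
          simp only [hV, List.getElem_map, List.getElem_range]
          rw [List.getD_eq_getElem?_getD, List.getElem?_eq_getElem h1, Option.getD_some] at h3
          by_cases h6 : M.run (join Q A) (pairBits (xi i n N K) a) τ [] = some [true]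
          · rw [decide_eq_true h6]
            exact h3.1 h6
          · rw [decide_eq_false h6]
            rcases hwi : w[i] with _ | _
            · rfl
            · exact absurd (h3.2 hwi) h6
      · exact Or.inr ⟨hw1, hd⟩
  have hcard : ((DT.strs n).filter (fun w => put N K b w A ∈ Rx M b Q α τ n N K)).card ≤
      2 ^ (α + 1) * (n * τ + 1) := by
    refine (Finset.card_le_card hsub).trans (Finset.card_biUnion_le.trans ?_)
    calc ∑ a ∈ Ad, (insert (V a)
        ((DT.strs n).filter (fun w => ¬ Disjoint (T a) (OD.blk N K w)))).card
        ≤ ∑ _a ∈ Ad, (n * τ + 1) := by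
          refine Finset.sum_le_sum fun a _ => ?_
          refine (Finset.card_insert_le _ _).trans (Nat.succ_le_succ ?_)
          refine le_trans (card_bad (W := DT.strs n) (T := T a) (g := OD.blk N K) ?_) (hTc a)
          intro w hw w' hw' hne
          exact disj_blk ((DT.mem_strs.1 hw).trans (DT.mem_strs.1 hw').symm) hne
      _ = Ad.card * (n * τ + 1) := by rw [Finset.sum_const, smul_eq_mul]
      _ ≤ 2 ^ (α + 1) * (n * τ + 1) := Nat.mul_le_mul_right _ (card_adv α).le
  have h2 : 2 * 2 ^ (n - 1) = 2 ^ n := by
    rw [← pow_succ']
    congr 1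
    omega
  omega

end Pool.Agent.TH680.NX
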